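import Pool.Agent.Helper22.OLPot

/-!
# On-line choosability of graphs whose small sets are sparse (MP_ff53f3_co)
-/

namespace Pool.Agent.Results.MP_ff53f3_co.SparseBlocks

open Pool.Agent.Helper22.OLC

theorem pow_bound {k : ℕ} (hk : 2 ≤ k) : 2 * (k - 1) ^ k ≤ k ^ k := by
  have h := one_add_mul_le_pow (R := ℝ) (a := 1 / ((k : ℝ) - 1)) (by
    have : (2 : ℝ) ≤ k := by exact_mod_cast hk
    have h0 : (0 : ℝ) < (k : ℝ) - 1 := by linarith
    have : (0 : ℝ) ≤ 1 / ((k : ℝ) - 1) := by positivity
    linarith) k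
  have hk' : (2 : ℝ) ≤ k := by exact_mod_cast hk
  have h0 : (0 : ℝ) < (k : ℝ) - 1 := by linarith
  have h1 : (2 : ℝ) ≤ (1 + 1 / ((k : ℝ) - 1)) ^ k := by
    refine le_trans ?_ h
    have : (1 : ℝ) ≤ k * (1 / ((k : ℝ) - 1)) := by
      rw [mul_one_div, le_div_iff₀ h0]
      linarith
    linarith
  have h2 : (1 + 1 / ((k : ℝ) - 1)) ^ k * ((k : ℝ) - 1) ^ k = (k : ℝ) ^ k := by
    rw [← mul_pow]
    congr 1
    field_simp
    ring
  have h3 : (2 : ℝ) * ((k : ℝ) - 1) ^ k ≤ (k : ℝ) ^ k := by
    rw [← h2]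
    exact mul_le_mul_of_nonneg_right h1 (by positivity)
  have h4 : ((k - 1 : ℕ) : ℝ) = (k : ℝ) - 1 := by
    rw [Nat.cast_sub (by omega)]
    simp
  have h5 : (((2 * (k - 1) ^ k : ℕ)) : ℝ) ≤ ((k ^ k : ℕ) : ℝ) := by
    push_cast
    rw [h4]
    exact h3
  exact_mod_cast h5

theorem block_wins {V : Type*} [DecidableEq V] {G : SimpleGraph V} {B : Finset V} {k a d : ℕ}
    (hk : 2 ≤ k) (c : V → Fin k) (hc : ∀ u ∈ B, ∀ v ∈ B, G.Adj u v → c u ≠ c v)
    (hsm : ∀ T ⊆ B, T.Nonempty → T.card * 2 ^ a ≤ B.card → ∃ v ∈ T, (nb G v T).card ≤ d) :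
    Wins G B (fun _ => k * (a + 2) + 3 * d + 1) := by
  set m : ℕ := k * (a + 2) with hm
  have hm1 : 1 ≤ m := Nat.mul_pos (by omega) (by omega)
  have hpow : 2 ^ (a + 2) * (k - 1) ^ m ≤ k ^ m := by
    rw [hm, pow_mul, pow_mul, ← mul_pow]
    exact Nat.pow_le_pow_left (pow_bound hk) _
  set x : ℕ := B.card * (k - 1) ^ m / k ^ m with hx
  have hkm : 0 < k ^ m := by positivity
  have hx1 : x * k ^ m ≤ B.card * (k - 1) ^ m := Nat.div_mul_le_self _ _
  have hx2 : B.card * (k - 1) ^ m < (x + 1) * k ^ m := by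
    rw [mul_comm (x + 1)]
    exact Nat.lt_mul_div_succ _ hkm
  have hx3 : x * 2 ^ (a + 2) ≤ B.card := by
    have h1 : 0 < (k - 1) ^ m := Nat.pow_pos (by omega)
    refine Nat.le_of_mul_le_mul_right ?_ h1
    calc x * 2 ^ (a + 2) * (k - 1) ^ m = x * (2 ^ (a + 2) * (k - 1) ^ m) := by ring
      _ ≤ x * k ^ m := Nat.mul_le_mul_left _ hpow
      _ ≤ B.card * (k - 1) ^ m := hx1
  refine wins_small hk hm1 c hc hx2 ?_
  intro T hTB hTne hTc
  rcases Nat.eq_zero_or_pos x with h0 | hpos
  · have hT1 : T.card = 1 := by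
      have := Finset.card_pos.2 hTne
      omega
    obtain ⟨v, rfl⟩ := Finset.card_eq_one.1 hT1
    refine ⟨v, by simp, ?_⟩
    have : nb G v {v} = ∅ := by
      rw [Finset.eq_empty_iff_forall_notMem]
      intro u hu
      rw [mem_nb, Finset.mem_singleton] at hu
      obtain ⟨rfl, h⟩ := hu
      exact G.loopless.irrefl _ h
    rw [this]
    simp
  · refine hsm T hTB hTne ?_
    refine le_trans ?_ hx3
    have h1 : T.card ≤ 3 * x := by omega
    have h2 : 2 ^ (a + 2) = 4 * 2 ^ a := by ring
    rw [h2]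
    have h3 : T.card * 2 ^ a ≤ 3 * x * 2 ^ a := Nat.mul_le_mul_right _ h1
    have h4 : 0 ≤ x * 2 ^ a := Nat.zero_le _
    nlinarith

/-- Blocks in increasing order. -/
theorem wins_blocks {V : Type*} [Fintype V] [DecidableEq V] {G : SimpleGraph V} {β : V → ℕ}
    {t : ℕ} (h : ∀ b, Wins G (Finset.univ.filter fun v => β v = b) (fun _ => t)) :
    ∀ n : ℕ, Wins G (Finset.univ.filter fun v => β v < n)
      (fun v => t + (nb G v (Finset.univ.filter fun u => β u < β v)).card) := by
  intro n
  induction n with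
  | zero =>
    apply wins_of_step
    intro M hM hne
    obtain ⟨v, hv⟩ := hne
    have := hM hv
    simp at this
  | succ n ih =>
    have e : (Finset.univ.filter fun v : V => β v < n + 1) =
        (Finset.univ.filter fun v => β v < n) ∪ (Finset.univ.filter fun v => β v = n) := by
      ext v
      simp only [Finset.mem_filter, Finset.mem_univ, true_and, Finset.mem_union]
      omega
    rw [e]
    refine wins_union ?_ ih (h n) ?_
    · rw [Finset.disjoint_left]
      intro v h1 h2
      rw [Finset.mem_filter] at h1 h2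
      omega
    · intro v hv
      rw [Finset.mem_filter] at hv
      rw [hv.2]

/-- Let the vertices of a `k`-colourable graph be partitioned in ordered blocks such that every
vertex has at most `D` neighbours in earlier blocks and every subset of a block with at most a
`2 ^ (-a)` fraction of its vertices has a vertex with at most `d` neighbours in the subset. Then
the graph is on-line choosable with `k (a + 2) + 3 d + 1 + D` tokens. -/
theorem result :
    ∀ (V : Type) [Fintype V] [DecidableEq V] (G : SimpleGraph V) (k a d D : ℕ) (β : V → ℕ),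
      2 ≤ k → G.Colorable k →
      (∀ v, {u | G.Adj v u ∧ β u < β v}.ncard ≤ D) →
      (∀ (b : ℕ) (T : Set V), T ⊆ {v | β v = b} → T.Nonempty →
        T.ncard * 2 ^ a ≤ {v | β v = b}.ncard → ∃ v ∈ T, {u | u ∈ T ∧ G.Adj v u}.ncard ≤ d) →
      OnlineChoosable G (k * (a + 2) + 3 * d + 1 + D) := by
  intro V _ _ G k a d D β hk hcol hD hsm
  obtain ⟨c⟩ := hcol
  obtain ⟨n, hn⟩ : ∃ n, ∀ v, β v < n := by
    refine ⟨(Finset.univ.image β).sup id + 1, fun v => ?_⟩
    have : β v ≤ (Finset.univ.image β).sup id :=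
      Finset.le_sup (f := id) (Finset.mem_image_of_mem β (Finset.mem_univ v))
    omega
  have hblock : ∀ b, Wins G (Finset.univ.filter fun v => β v = b)
      (fun _ => k * (a + 2) + 3 * d + 1) := by
    intro b
    refine block_wins hk c (fun u _ v _ huv => c.valid huv) ?_
    intro T hT hne hTc
    have e1 : (T : Set V).ncard = T.card := Set.ncard_coe_finset T
    have e2 : {v | β v = b}.ncard = (Finset.univ.filter fun v => β v = b).card := by
      rw [← Set.ncard_coe_finset]
      congr 1
      ext v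
      simp
    obtain ⟨v, hv, hvd⟩ := hsm b T (by
      intro v hv
      have := hT (Finset.mem_coe.1 hv)
      simpa using this) (by simpa using hne) (by rw [e1, e2]; exact hTc)
    refine ⟨v, by simpa using hv, ?_⟩
    rw [← Set.ncard_coe_finset]
    refine le_trans (le_of_eq ?_) hvd
    congr 1
    ext u
    rw [Finset.mem_coe, mem_nb]
    simp
  have h := wins_blocks hblock n
  have e : (Finset.univ.filter fun v => β v < n) = Finset.univ := by
    ext v
    simp [hn v]
  rw [e] at h
  refine Wins.mono h fun v _ => ?_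
  have h1 : (nb G v (Finset.univ.filter fun u => β u < β v)).card ≤ D := by
    refine le_trans (le_of_eq ?_) (hD v)
    rw [← Set.ncard_coe_finset]
    congr 1
    ext u
    rw [Finset.mem_coe, mem_nb]
    simp [and_comm]
  omega

end Pool.Agent.Results.MP_ff53f3_co.SparseBlocks
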