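import Pool.Agent.Helper22.OLBuilt

/-!
# On-line choosability of choosable graphs built by substitution (MP_ff53f3_co)
-/

namespace Pool.Agent.Results.MP_ff53f3_co.Substitution

open Pool.Agent.Helper22.OLC

theorem main_bound {V : Type*} [Fintype V] [DecidableEq V] (G : SimpleGraph V) (k w D : ℕ)
    (hw : 1 ≤ w) (hch : Choosable G k) (hb : Built G w D Finset.univ) :
    OnlineChoosable G
      (⌊9 * ((D : ℝ) + 1) * k * (k * Real.log k + Real.log ((D + 2) * w))⌋₊ + k) := by
  rcases Nat.eq_zero_or_pos k with rfl | hk
  · -- no vertices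
    have hV : IsEmpty V := by
      obtain ⟨c, hc, _⟩ := hch (fun _ => ∅) (by simp)
      exact ⟨fun v => by simpa using hc v⟩
    apply wins_of_step
    intro M _ hne
    obtain ⟨v, _⟩ := hne
    exact hV.elim v
  · have hKk : k ≤ k ^ k := Nat.le_self_pow (by omega) k
    have hK1 : 1 ≤ k ^ k := by omega
    obtain ⟨c, hc⟩ := colouring_of_choosable hch
    set T : ℕ := ⌊9 * ((D : ℝ) + 1) * k * (k * Real.log k + Real.log ((D + 2) * w))⌋₊ + 1 with hT
    have hTS : ∀ S : Finset V, Clustered G (w * k ^ k) D S → Wins G S (fun _ => T) := by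
      rintro S ⟨β, h1, h2⟩
      refine wins_cluster (D := D + 1) (k := k) (β := β) (N := w * k ^ k) (by omega) hk c
        (fun u _ v _ huv => hc u v huv) ?_ h1 (fun a => (h2 a).trans (by omega)) ?_
      · exact Nat.mul_pos (by omega) (by omega)
      · have hk' : (0 : ℝ) < k := by exact_mod_cast hk
        have hw' : (0 : ℝ) < w := by exact_mod_cast hw
        have e1 : Real.log (((((D + 1 : ℕ) : ℝ)) + 1) * ((w * k ^ k : ℕ) : ℝ)) =
            k * Real.log k + Real.log ((D + 2) * w) := by
          have e2 : ((((D + 1 : ℕ) : ℝ)) + 1) * ((w * k ^ k : ℕ) : ℝ) =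
              (k : ℝ) ^ k * ((D + 2) * w) := by
            push_cast
            ring
          rw [e2, Real.log_mul (by positivity) (by positivity), Real.log_pow]
        rw [e1, hT]
        push_cast
        exact Nat.lt_floor_add_one _
    have h := wins_built hw hTS hb k hk hKk (noK_of_choosable hch _)
    refine Wins.mono h fun _ _ => ?_
    omega

/-- Every `k`-choosable graph built by repeated substitution into graphs which have a partition in
classes of at most `w` vertices, each joined to at most `D` other classes, is on-line choosable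
with `9 (D + 1) k (k log k + log ((D + 2) w)) + k` tokens. -/
theorem result :
    ∀ (V : Type) [Fintype V] [DecidableEq V] (G : SimpleGraph V) (k w D : ℕ), 1 ≤ w →
      Choosable G k → Built G w D Finset.univ →
      OnlineChoosable G
        (⌊9 * ((D : ℝ) + 1) * k * (k * Real.log k + Real.log ((D + 2) * w))⌋₊ + k) :=
  fun V _ _ G k w D hw hch hb => main_bound G k w D hw hch hb

end Pool.Agent.Results.MP_ff53f3_co.Substitution
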